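import Pool.Agent.N880.QF.Dz
import Pool.Agent.N880.QF.Char
import Pool.Agent.H484R2.Zeta
import Pool.Agent.R426.QC.Ep
import Pool.Agent.TH958.An.Zeta
import Pool.Agent.D0H69.BS.Stm

/-!
# Project BS, module ZK: the zeta function of an imaginary quadratic field
-/

set_option autoImplicit false

open NumberField IsDedekindDomain Complex Filter Topology
open Pool.Agent.TH560.QT (Attached)
open Pool.Agent.N880.QF (S_dz S_char dz_main char_main)

namespace Pool.Agent.D0H25.BS

/-! ### Euler product -/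

section zeta
variable {K : Type} [Field K] [NumberField K]

/-- the term of a nonzero ideal -/
noncomputable def fC (s : ℂ) (I : Ideal (𝓞 K)) : ℂ :=
  open Classical in if I = ⊥ then 0 else ((Ideal.absNorm I : ℕ) : ℂ) ^ (-s)

lemma hasSum_fC {s : ℂ} (hs : 1 < s.re) : HasSum (fC (K := K) s) (dedekindZeta K s) := by
  classical
  have h := Pool.Agent.H484R2.hasSum_ideals K hs
  rw [← Pool.Agent.H484R2.zeta_eq K hs] at h
  have hinj : Function.Injective (fun I : Pool.Agent.H484R2.NZI K => I.1) :=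
    Subtype.val_injective
  rw [← hinj.hasSum_iff]
  · refine h.congr_fun ?_ |> fun h => h
    intro I
    simp only [Function.comp_apply, fC, if_neg I.2]
  · intro I hI
    unfold fC
    by_contra hne
    apply hI
    by_cases h0 : I = ⊥
    · rw [if_pos h0] at hne
      exact absurd rfl hne
    · exact ⟨⟨I, h0⟩, rfl⟩

lemma cmiC {s : ℂ} (hs : 1 < s.re) : Pool.Agent.R426.QC.CMI (fC (K := K) s) where
  zero := by
    unfold fC
    rw [if_pos rfl]
  one := by
    unfold fC
    rw [if_neg (by exact top_ne_bot), Ideal.absNorm_top]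
    simp
  mul I J := by
    unfold fC
    by_cases hI : I = ⊥
    · rw [if_pos hI, if_pos (by rw [hI, Ideal.bot_mul]), zero_mul]
    · by_cases hJ : J = ⊥
      · rw [if_pos hJ, if_pos (by rw [hJ, Ideal.mul_bot]), mul_zero]
      · rw [if_neg hI, if_neg hJ, if_neg (by
          intro h
          rcases Ideal.mul_eq_bot.mp h with h | h
          · exact hI h
          · exact hJ h), map_mul]
        push_cast
        rw [← Complex.natCast_mul_natCast_cpow]
  summ := (hasSum_fC hs).summable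

theorem hasProd_zeta {s : ℂ} (hs : 1 < s.re) :
    HasProd (fun v : HeightOneSpectrum (𝓞 K) =>
      (1 - (Pool.Agent.H921R2.TatePole.nm v : ℂ) ^ (-s))⁻¹) (dedekindZeta K s) := by
  have h2 := Pool.Agent.R426.QC.hasProdI (cmiC (K := K) hs)
  rw [(hasSum_fC (K := K) hs).tsum_eq] at h2
  refine h2.congr_fun ?_ |> fun h => h
  intro v
  unfold fC Pool.Agent.H921R2.TatePole.nm
  rw [if_neg v.ne_bot]

end zeta

/-! ### The character of an imaginary quadratic field -/

lemma decomp (m : ℤ) (h0 : m ≠ 0) (hsq : ¬ IsSquare m) :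
    ∃ (k : ℤ) (b : ℕ), Squarefree k ∧ k ≠ 1 ∧ 1 ≤ b ∧ m = k * (b : ℤ) ^ 2 := by
  obtain ⟨a, b, hab, ha⟩ := Nat.sq_mul_squarefree m.natAbs
  have hm : m = (m.sign * (a : ℤ)) * (b : ℤ) ^ 2 := by
    conv_lhs => rw [← Int.sign_mul_natAbs m, ← hab]
    push_cast
    ring
  refine ⟨m.sign * a, b, ?_, ?_, ?_, hm⟩
  · rw [← Int.squarefree_natAbs, Int.natAbs_mul, Int.natAbs_sign_of_ne_zero h0, one_mul,
      Int.natAbs_natCast]
    exact ha
  · intro h
    rw [h, one_mul, sq] at hm
    exact hsq ⟨_, hm⟩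
  · by_contra hb
    have : b = 0 := by omega
    rw [this] at hm
    simp at hm
    exact h0 hm

lemma att_to {k : ℤ} {b : ℕ} (hb : 1 ≤ b) {N : ℕ} {χ : DirichletCharacter ℂ N}
    (h : Attached k χ) : Attached (k * (b : ℤ) ^ 2) χ := by
  obtain ⟨B, hB⟩ := h
  refine ⟨max B (b + 1), fun p hp hBp => ?_⟩
  rw [hB p hp ((le_max_left _ _).trans hBp), jacobiSym.mul_left, sq, jacobiSym.mul_left]
  have hbp : b < p := lt_of_lt_of_le (Nat.lt_succ_self b) ((le_max_right _ _).trans hBp)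
  have hcop : IsCoprime (b : ℤ) (p : ℤ) := by
    rw [Nat.isCoprime_iff_coprime]
    exact (Nat.coprime_of_lt_prime (by omega) hbp hp).symm
  have h1 : jacobiSym (b : ℤ) p * jacobiSym (b : ℤ) p = 1 := by
    rw [← jacobiSym.mul_left, ← sq]
    exact jacobiSym.sq_one' (Int.isCoprime_iff_gcd_eq_one.1 hcop)
  rw [h1, mul_one]

lemma exists_char (m : ℤ) (hm : ¬ IsSquare m) :
    ∃ (N : ℕ) (_ : NeZero N) (χ : DirichletCharacter ℂ N), χ.IsPrimitive ∧ Attached m χ := by
  have h0 : m ≠ 0 := by rintro rfl; exact hm IsSquare.zero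
  obtain ⟨k, b, hk, hk1, hb, hmk⟩ := decomp m h0 hm
  obtain ⟨⟨N, hN, χ, hp, ha⟩, -⟩ := char_main k hk hk1
  exact ⟨N, hN, χ, hp, hmk ▸ att_to hb ha⟩

/-- `(m / p) = -1` for `m < 0` and `p ≡ -1` modulo `4 |m|` -/
lemma jac_neg {m : ℤ} (hm : m < 0) {p : ℕ} (hp : Odd p)
    (h : p % (4 * m.natAbs) = 4 * m.natAbs - 1) : jacobiSym m p = -1 := by
  have hn : 1 ≤ m.natAbs := by omega
  obtain ⟨n, hnn⟩ : ∃ n : ℕ, n = m.natAbs := ⟨_, rfl⟩
  rw [← hnn] at hn h
  have hmn : m = -(n : ℤ) := by omega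
  have hodd : Odd (4 * n - 1) := ⟨2 * n - 1, by omega⟩
  rw [jacobiSym.mod_right m hp, ← hnn, h, hmn, jacobiSym.neg _ hodd]
  have h4 : ZMod.χ₄ ((4 * n - 1 : ℕ) : ZMod 4) = -1 := by
    apply ZMod.χ₄_nat_three_mod_four
    omega
  rw [h4]
  have h5 : jacobiSym (n : ℤ) (4 * n - 1) = 1 := by
    have e1 : jacobiSym (4 * (n : ℤ)) (4 * n - 1) = 1 := by
      have : (4 * (n : ℤ)) % ((4 * n - 1 : ℕ) : ℤ) = 1 % ((4 * n - 1 : ℕ) : ℤ) := by
        apply Int.ModEq.symm
        rw [Int.modEq_iff_dvd]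
        refine ⟨1, ?_⟩
        push_cast [Nat.cast_sub (by omega : 1 ≤ 4 * n)]
        ring
      rw [jacobiSym.mod_left' this, jacobiSym.one_left]
    have e2 : jacobiSym (4 : ℤ) (4 * n - 1) = 1 := by
      have : (4 : ℤ) = 2 ^ 2 := by norm_num
      rw [this]
      apply jacobiSym.sq_one'
      rw [← Int.isCoprime_iff_gcd_eq_one]
      refine ⟨-(2 * n - 1), 1, ?_⟩
      push_cast [Nat.cast_sub (by omega : 1 ≤ 4 * n)]
      ring
    rw [jacobiSym.mul_left, e2, one_mul] at e1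
    exact e1
  rw [h5, mul_one]

lemma chi_odd {m : ℤ} (hm : m < 0) {N : ℕ} [NeZero N] {χ : DirichletCharacter ℂ N}
    (hatt : Attached m χ) : χ.Odd := by
  obtain ⟨B, hB⟩ := hatt
  obtain ⟨n, hnn⟩ : ∃ n : ℕ, n = m.natAbs := ⟨_, rfl⟩
  have hn : 1 ≤ n := by omega
  have hN : 1 ≤ N := Nat.one_le_iff_ne_zero.2 (NeZero.ne N)
  have hNZ : NeZero (4 * n * N) := ⟨by positivity⟩
  have hu : IsUnit (-1 : ZMod (4 * n * N)) := isUnit_one.neg
  obtain ⟨p, hp, hpp, hpu⟩ := Nat.forall_exists_prime_gt_and_eq_mod hu (B + 2)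
  have hdvd : (4 * n * N) ∣ p + 1 := by
    rw [← ZMod.natCast_eq_zero_iff]
    push_cast
    rw [hpu]
    ring
  have h1 : 4 * n ∣ p + 1 := (Dvd.intro _ rfl).trans hdvd
  have h2 : N ∣ p + 1 := (Dvd.intro_left _ rfl).trans hdvd
  have h3 : χ (p : ZMod N) = χ (-1) := by
    congr 1
    have : ((p + 1 : ℕ) : ZMod N) = 0 := (ZMod.natCast_eq_zero_iff _ _).2 h2
    push_cast at this
    exact eq_neg_of_add_eq_zero_left this
  have hodd : Odd p := hpp.odd_of_ne_two (by omega)
  have h4 : p % (4 * m.natAbs) = 4 * m.natAbs - 1 := by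
    rw [← hnn]
    obtain ⟨c, hc⟩ := h1
    have hc1 : 1 ≤ c := by
      by_contra h
      have : c = 0 := by omega
      rw [this] at hc
      omega
    have e : p = (4 * n - 1) + (4 * n) * (c - 1) := by
      obtain ⟨d, rfl⟩ : ∃ d, c = d + 1 := ⟨c - 1, by omega⟩
      rw [Nat.add_sub_cancel]
      have : (4 * n) * (d + 1) = 4 * n * d + 4 * n := by ring
      rw [this] at hc
      omega
    rw [e, Nat.add_mul_mod_self_left, Nat.mod_eq_of_lt (by omega)]
  have h5 := hB p hpp (by omega)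
  rw [h3, jac_neg hm hodd h4] at h5
  show χ (-1) = -1
  rw [h5]
  norm_num

/-! ### The `L`-function at `0` -/

lemma compl_ne {N : ℕ} [NeZero N] (χ : DirichletCharacter ℂ N) {s : ℂ} (hs : s ≠ 0 ∨ N ≠ 1)
    (h : DirichletCharacter.LFunction χ s ≠ 0) :
    DirichletCharacter.completedLFunction χ s ≠ 0 := by
  intro h0
  apply h
  rw [DirichletCharacter.LFunction_eq_completed_div_gammaFactor χ s hs, h0, zero_div]

lemma L_zero_ne {N : ℕ} [NeZero N] {χ : DirichletCharacter ℂ N} (hp : χ.IsPrimitive)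
    (hodd : χ.Odd) : DirichletCharacter.LFunction χ 0 ≠ 0 := by
  have hχ1 : χ ≠ 1 := by
    rintro rfl
    have h : (1 : DirichletCharacter ℂ N) (-1) = -1 := hodd
    rw [MulChar.one_apply (isUnit_one.neg)] at h
    norm_num at h
  have hN : N ≠ 1 := by
    rintro rfl
    exact hχ1 (DirichletCharacter.level_one χ)
  have hinv : χ⁻¹ ≠ 1 := inv_ne_one.2 hχ1
  -- the root number
  have hroot : DirichletCharacter.rootNumber χ ≠ 0 := by
    intro h0
    have h1 := DirichletCharacter.IsPrimitive.completedLFunction_one_sub hp (-1)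
    rw [h0, mul_zero, zero_mul] at h1
    refine compl_ne χ (s := 1 - (-1)) (Or.inr hN) ?_ h1
    exact DirichletCharacter.LFunction_ne_zero_of_one_le_re χ (Or.inl hχ1) (by norm_num)
  have h1 := DirichletCharacter.IsPrimitive.completedLFunction_one_sub hp 1
  rw [sub_self] at h1
  have h2 : DirichletCharacter.completedLFunction χ⁻¹ 1 ≠ 0 :=
    compl_ne _ (Or.inl one_ne_zero)
      (DirichletCharacter.LFunction_ne_zero_of_one_le_re χ⁻¹ (Or.inl hinv) (by norm_num))
  have hN0 : (N : ℂ) ≠ 0 := Nat.cast_ne_zero.2 (NeZero.ne N)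
  have h3 : DirichletCharacter.completedLFunction χ 0 ≠ 0 := by
    rw [h1]
    refine mul_ne_zero (mul_ne_zero ?_ hroot) h2
    rw [Ne, Complex.cpow_eq_zero_iff]
    exact fun h => hN0 h.1
  rw [DirichletCharacter.LFunction_eq_completed_div_gammaFactor χ 0 (Or.inr hN)]
  refine div_ne_zero h3 ?_
  rw [hodd.gammaFactor_def]
  exact Complex.Gammaℝ_ne_zero_of_re_pos (by norm_num)

/-- **ZK** -/
theorem zk : Pool.Agent.D0H69.BS.S_ZK := by
  intro K _ _ hK m a ha hm
  have hsq : ¬ IsSquare m := by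
    rintro ⟨c, rfl⟩
    nlinarith [mul_self_nonneg c]
  obtain ⟨N, hN, χ, hp, hatt⟩ := exists_char m hsq
  have hodd := chi_odd hm hatt
  have hχ1 : χ ≠ 1 := by
    rintro rfl
    have h : (1 : DirichletCharacter ℂ N) (-1) = -1 := hodd
    rw [MulChar.one_apply (isUnit_one.neg)] at h
    norm_num at h
  have hLd : Differentiable ℂ (DirichletCharacter.LFunction χ) :=
    DirichletCharacter.differentiable_LFunction hχ1
  have hLan : ∀ s : ℂ, AnalyticAt ℂ (DirichletCharacter.LFunction χ) s := fun s =>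
    hLd.analyticAt s
  have hζan : ∀ s : ℂ, s ≠ 1 → AnalyticAt ℂ riemannZeta s := by
    intro s hs
    have hd : DifferentiableOn ℂ riemannZeta {s | s ≠ 1} := fun s hs =>
      (differentiableAt_riemannZeta hs).differentiableWithinAt
    exact hd.analyticAt (isOpen_ne.mem_nhds hs)
  have hLne : ∀ s : ℂ, 1 ≤ s.re → DirichletCharacter.LFunction χ s ≠ 0 := fun s hs =>
    DirichletCharacter.LFunction_ne_zero_of_one_le_re χ (Or.inl hχ1) hs
  have hord0 : ∀ s : ℂ, s ≠ 1 → riemannZeta s ≠ 0 → DirichletCharacter.LFunction χ s ≠ 0 →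
      meromorphicOrderAt (fun s => riemannZeta s * DirichletCharacter.LFunction χ s) s = 0 := by
    intro s hs h1 h2
    have h3 : AnalyticAt ℂ (fun s => riemannZeta s * DirichletCharacter.LFunction χ s) s :=
      (hζan s hs).mul (hLan s)
    rw [h3.meromorphicOrderAt_eq, h3.analyticOrderAt_eq_zero.2 (mul_ne_zero h1 h2)]
    rfl
  refine ⟨fun s => riemannZeta s * DirichletCharacter.LFunction χ s, ?_, ?_, ?_, ?_, ?_⟩
  · intro s _
    exact (Pool.Agent.TH958.An.zeta_mero s).mul (hLan s).meromorphicAt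
  · intro s hs
    have h1 := hasProd_zeta (K := K) hs
    rw [dz_main K hK m a ha hsq N hN χ hp hatt s hs] at h1
    exact h1
  · have h1 := meromorphicOrderAt_mul_of_ne_zero (f := riemannZeta) (hLan 1)
      (hLne 1 (by norm_num))
    rw [Pool.Agent.TH958.An.zeta_order_one] at h1
    rw [← h1]
    congr 1
    funext s
    rw [Pi.mul_apply, mul_comm]
  · refine hord0 0 zero_ne_one ?_ (L_zero_ne hp hodd)
    rw [riemannZeta_zero]
    norm_num
  · intro s hs
    refine hord0 s ?_ (riemannZeta_ne_zero_of_one_le_re hs.le) (hLne s hs.le)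
    rintro rfl
    norm_num at hs

end Pool.Agent.D0H25.BS
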